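import Mathlib
import Pool.Agent.W130.HL.Final

/-!
# Both median eigenvalues of a graph of maximum degree 4 are at least `-√3`

The number of adjacency eigenvalues below `-√3` of a graph of maximum degree at most `4` on `n ≥ 1`
vertices is at most `(n - 1) / 2` (`Pool.Agent.W130.HL.neg_side`, the case `q = 3`; connectedness is
not needed).  Hence the eigenvalues number `⌊(n + 1) / 2⌋` and `⌈(n + 1) / 2⌉` in decreasing order
are at least `-√3`.
-/

set_option autoImplicit false

namespace Pool.Agent.Results.MP_46d9e0_co.LowerMedian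

open Matrix Finset

/-- if a decreasing list of `n` reals has at most `(n - 1) / 2` members below `t`, then its members
with (zero-based) number at most `n / 2` are at least `t` -/
lemma ge_of_count {n : ℕ} (f : Fin n → ℝ) (hf : Antitone f) (t : ℝ)
    (hc : (univ.filter (fun j => f j < t)).card ≤ (n - 1) / 2) (i : Fin n) (hi : (i : ℕ) ≤ n / 2) :
    t ≤ f i := by
  by_contra h
  push Not at h
  have h1 : (univ.filter (fun j : Fin n => i ≤ j)) ⊆ univ.filter (fun j => f j < t) := by
    intro j hj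
    rw [mem_filter] at hj ⊢
    exact ⟨mem_univ _, lt_of_le_of_lt (hf hj.2) h⟩
  have h2 := card_le_card h1
  have h3 : (univ.filter (fun j : Fin n => i ≤ j)).card = n - i := by
    have : univ.filter (fun j : Fin n => i ≤ j) = Finset.Ici i := by
      ext j; simp
    rw [this, Fin.card_Ici]
  have hn := i.2
  omega

/-- the median indices are at most `n / 2` when counted from zero -/
lemma idx_le (n i : ℕ) (_ : i < n) (hi : (i : ℤ) + 1 = ⌊((n : ℝ) + 1) / 2⌋ ∨
    (i : ℤ) + 1 = ⌈((n : ℝ) + 1) / 2⌉) : i ≤ n / 2 := by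
  have key : (i : ℤ) + 1 ≤ ⌈((n : ℝ) + 1) / 2⌉ := by
    rcases hi with hi | hi
    · rw [hi]; exact Int.floor_le_ceil _
    · exact hi.le
  have h3 : ⌈((n : ℝ) + 1) / 2⌉ ≤ ((n / 2 + 1 : ℕ) : ℤ) := by
    rw [Int.ceil_le]
    have h4 : n ≤ 2 * (n / 2) + 1 := by omega
    have h5 : (n : ℝ) ≤ 2 * ((n / 2 : ℕ) : ℝ) + 1 := by exact_mod_cast h4
    have h6 : (((n / 2 + 1 : ℕ) : ℤ) : ℝ) = ((n / 2 : ℕ) : ℝ) + 1 := by norm_cast
    rw [h6]
    linarith
  have h6 : (i : ℤ) + 1 ≤ ((n / 2 + 1 : ℕ) : ℤ) := key.trans h3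
  omega

/-- **Both median eigenvalues of every graph of maximum degree at most `4` are at least `-√3`.**
Here `hA.eigenvalues₀ : Fin n → ℝ` lists the `n` adjacency eigenvalues with multiplicity in
decreasing order, so that its entry with number `i` is `λ_{i + 1}`; the two hypotheses on `i` say
`i + 1 = ⌊(n + 1) / 2⌋` or `i + 1 = ⌈(n + 1) / 2⌉`. -/
theorem result (V : Type) [Fintype V] [DecidableEq V] (G : SimpleGraph V) [DecidableRel G.Adj]
    (hd : G.maxDegree ≤ 4) (hA : (G.adjMatrix ℝ).IsHermitian) (i : Fin (Fintype.card V))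
    (hi : (i : ℤ) + 1 = ⌊((Fintype.card V : ℝ) + 1) / 2⌋ ∨
      (i : ℤ) + 1 = ⌈((Fintype.card V : ℝ) + 1) / 2⌉) :
    -Real.sqrt 3 ≤ hA.eigenvalues₀ i := by
  have hne : Nonempty V := by
    rw [← Fintype.card_pos_iff]
    exact lt_of_le_of_lt (Nat.zero_le _) i.2
  have hpp : IsPrimePow 3 := Nat.Prime.isPrimePow (by norm_num)
  have h1 := Pool.Agent.W130.HL.neg_side G 3 hpp hd
  rw [hA.roots_charpoly_eq_eigenvalues₀, Multiset.filter_map, Multiset.card_map] at h1
  have h2 : (univ.filter (fun j => hA.eigenvalues₀ j < -Real.sqrt 3)).card ≤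
      (Fintype.card V - 1) / 2 := by
    refine le_trans (le_of_eq ?_) h1
    rw [Finset.card_def, Finset.filter_val]
    congr 1
  exact ge_of_count _ hA.eigenvalues₀_antitone _ h2 i (idx_le _ _ i.2 hi)

end Pool.Agent.Results.MP_46d9e0_co.LowerMedian
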